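import Pool.Agent.N422.NWS.Stm
import Pool.Agent.N422.NW.JEN

/-! Project NWS, piece WIN (helper743), first part: mean values over the circle, elementary bounds. -/

set_option autoImplicit false

open Finset

namespace Pool.Agent.Run7.h743.NW

open Pool.Agent.N422.NW Pool.Agent.N422.NWS

/-- the mean over a period -/
noncomputable def AV (g : ℝ → ℝ) : ℝ := (2 * Real.pi)⁻¹ * ∫ θ in (0 : ℝ)..2 * Real.pi, g θ

lemma av_eq (F : ℂ → ℝ) : Real.circleAverage F 0 1 = AV (fun θ => F (circleMap 0 1 θ)) := by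
  unfold Real.circleAverage AV
  rw [smul_eq_mul]

lemma av_add {f g : ℝ → ℝ} (hf : Continuous f) (hg : Continuous g) :
    AV (fun θ => f θ + g θ) = AV f + AV g := by
  unfold AV
  rw [intervalIntegral.integral_add (hf.intervalIntegrable _ _) (hg.intervalIntegrable _ _)]
  ring

lemma av_mul (c : ℝ) (f : ℝ → ℝ) : AV (fun θ => c * f θ) = c * AV f := by
  unfold AV
  rw [intervalIntegral.integral_const_mul]
  ring

lemma av_sum {ι : Type} (s : Finset ι) (f : ι → ℝ → ℝ) (hf : ∀ i ∈ s, Continuous (f i)) :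
    AV (fun θ => ∑ i ∈ s, f i θ) = ∑ i ∈ s, AV (f i) := by
  unfold AV
  rw [intervalIntegral.integral_finsetSum (fun i hi => (hf i hi).intervalIntegrable _ _), Finset.mul_sum]

lemma av_mono {f g : ℝ → ℝ} (hf : Continuous f) (hg : Continuous g) (h : ∀ θ, f θ ≤ g θ) :
    AV f ≤ AV g := by
  unfold AV
  refine mul_le_mul_of_nonneg_left ?_ (by positivity)
  exact intervalIntegral.integral_mono (by positivity) (hf.intervalIntegrable _ _)
    (hg.intervalIntegrable _ _) h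

lemma sinh_le {x : ℝ} (h0 : 0 ≤ x) (h1 : x ≤ 1) : Real.sinh x ≤ 2 * x := by
  have e1 := Real.abs_exp_sub_one_sub_id_le (x := x) (by rw [abs_of_nonneg h0]; exact h1)
  have e2 := Real.abs_exp_sub_one_sub_id_le (x := -x) (by rw [abs_neg, abs_of_nonneg h0]; exact h1)
  rw [abs_le] at e1 e2
  rw [Real.sinh_eq]
  nlinarith [e1.2, e2.1]

lemma cosh_le {x : ℝ} (h0 : 0 ≤ x) (h1 : x ≤ 1) : Real.cosh x ≤ 1 + x := by
  have e1 := Real.abs_exp_sub_one_sub_id_le (x := x) (by rw [abs_of_nonneg h0]; exact h1)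
  have e2 := Real.abs_exp_sub_one_sub_id_le (x := -x) (by rw [abs_neg, abs_of_nonneg h0]; exact h1)
  rw [abs_le] at e1 e2
  rw [Real.cosh_eq]
  nlinarith [e1.2, e2.2]

lemma log_ge {u : ℝ} (hu : |u| ≤ 1 / 2) : -u - u ^ 2 / 2 - 2 * |u| ^ 3 ≤ Real.log (1 - u) := by
  have h1 : |u| < 1 := by linarith
  have h2 := Real.abs_log_sub_add_sum_range_le h1 2
  rw [abs_le] at h2
  have h3 : ∑ i ∈ Finset.range 2, u ^ (i + 1) / ((i : ℝ) + 1) = u + u ^ 2 / 2 := by
    simp [Finset.sum_range_succ]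
    norm_num
  rw [h3] at h2
  have h4 : |u| ^ (2 + 1) / (1 - |u|) ≤ 2 * |u| ^ 3 := by
    rw [div_le_iff₀ (by linarith)]
    have h5 : 0 ≤ |u| ^ 3 * (1 - 2 * |u|) := mul_nonneg (by positivity) (by linarith)
    norm_num
    linarith
  linarith [h2.1]

variable {m : ℕ}

lemma ee_abs {p : Fin m → ℝ} (hp : ∀ c, 0 ≤ p c ∧ p c ≤ 1 / 2) (A X : Finset (Fin m)) :
    |ee p A X| ≤ 1 := by
  unfold ee
  rw [Finset.abs_prod]
  refine Finset.prod_le_one (fun c _ => abs_nonneg _) fun c _ => ?_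
  have := hp c
  split_ifs
  · rw [abs_le]; constructor <;> linarith
  · rw [abs_le]; constructor <;> linarith

lemma ee_empty {p : Fin m → ℝ} (X : Finset (Fin m)) : ee p ∅ X = 1 := by
  unfold ee
  rw [Finset.prod_empty]

lemma card_le : (((univ : Finset (Finset (Fin m))).erase ∅).card : ℝ) ≤ 2 ^ m := by
  have h1 : ((univ : Finset (Finset (Fin m))).erase ∅).card ≤ 2 ^ m := by
    refine (Finset.card_erase_le).trans ?_
    rw [Finset.card_univ, Fintype.card_finset, Fintype.card_fin]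
  exact_mod_cast h1

/-- a sum over the nonempty sets of cells -/
lemma sum_bound {p : Fin m → ℝ} (hp : ∀ c, 0 ≤ p c ∧ p c ≤ 1 / 2) (X : Finset (Fin m))
    (a cA : Finset (Fin m) → ℝ) (M R c1 : ℝ) (hM : 0 ≤ M) (hR : 0 ≤ R) (hc1 : 0 ≤ c1)
    (ha : ∀ A ∈ univ.erase (∅ : Finset (Fin m)), |a A| ≤ M)
    (hc : ∀ A ∈ univ.erase (∅ : Finset (Fin m)), 0 ≤ cA A ∧ cA A ≤ R * c1) :
    |∑ A ∈ univ.erase (∅ : Finset (Fin m)), a A * cA A * ee p A X| ≤ 2 ^ m * M * R * c1 := by
  refine (Finset.abs_sum_le_sum_abs _ _).trans ?_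
  have h1 : ∀ A ∈ univ.erase (∅ : Finset (Fin m)), |a A * cA A * ee p A X| ≤ M * (R * c1) := by
    intro A hA
    rw [abs_mul, abs_mul, abs_of_nonneg (hc A hA).1]
    calc |a A| * cA A * |ee p A X| ≤ (M * (R * c1)) * 1 := by
          refine mul_le_mul ?_ (ee_abs hp A X) (abs_nonneg _) (by positivity)
          exact mul_le_mul (ha A hA) (hc A hA).2 (hc A hA).1 hM
      _ = M * (R * c1) := mul_one _
  refine (Finset.sum_le_sum h1).trans ?_
  rw [Finset.sum_const, nsmul_eq_mul]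
  calc (((univ : Finset (Finset (Fin m))).erase ∅).card : ℝ) * (M * (R * c1)) ≤ 2 ^ m * (M * (R * c1)) :=
        mul_le_mul_of_nonneg_right card_le (by positivity)
    _ = 2 ^ m * M * R * c1 := by ring

end Pool.Agent.Run7.h743.NW
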