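import Pool.Agent.Run7.h743.NW.Av

/-! Project NWS, piece WIN (helper743), second part: the choice of the coefficients and the averages. -/

set_option autoImplicit false

open Finset

namespace Pool.Agent.Run7.h743.NW

open Pool.Agent.N422.NW Pool.Agent.N422.NWS

/-- the data of one window -/
structure Dat {m : ℕ} (hs : Fin m → ℕ) (κ x : ℝ) (p : Fin m → ℝ) (d : ℕ → ℝ → ℝ) : Prop where
  hs1 : ∀ c, 1 ≤ hs c
  k0 : 0 < κ
  k1 : κ ≤ 1 / 12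
  x0 : 0 < x
  x1 : x ≤ 1
  hp : ∀ c, 0 ≤ p c ∧ p c ≤ 1 / 2
  dc : ∀ h, Continuous (d h)
  d0 : ∀ h θ, 0 ≤ d h θ
  d3 : ∀ θ, d 1 θ ≤ 3
  d2 : ∀ h, 1 ≤ h → h ≤ ∑ c, hs c → ∀ θ, d h θ ≤ 2 * (h : ℝ) ^ 2 * d 1 θ
  dm : ∀ h : ℕ, AV (d h) = Real.sinh (h * x)
  dq : ∀ h : ℕ, AV (fun θ => d h θ ^ 2) = Real.sinh (h * x) * Real.cosh (h * x)

/-- the factor `1 / (1 - κ c_1)` -/
noncomputable def yy (κ : ℝ) (d : ℕ → ℝ → ℝ) (θ : ℝ) : ℝ := (1 - κ * d 1 θ)⁻¹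

/-- the averages `s_A` -/
noncomputable def sA {m : ℕ} (hs : Fin m → ℕ) (κ : ℝ) (d : ℕ → ℝ → ℝ) (A : Finset (Fin m)) : ℝ :=
  AV (fun θ => d (sz hs A) θ * yy κ d θ)

variable {m : ℕ} {hs : Fin m → ℕ} {κ x : ℝ} {p : Fin m → ℝ} {d : ℕ → ℝ → ℝ}

namespace Dat

lemma den (D : Dat hs κ x p d) (θ : ℝ) : 1 - 3 * κ ≤ 1 - κ * d 1 θ ∧ 3 / 4 ≤ 1 - 3 * κ ∧ 1 - κ * d 1 θ ≤ 1 := by
  have h1 := D.d3 θ
  have h2 := D.d0 1 θ
  have h3 := D.k0
  have h4 := D.k1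
  refine ⟨by nlinarith, by linarith, by nlinarith⟩

lemma y_cont (D : Dat hs κ x p d) : Continuous (yy κ d) := by
  unfold yy
  refine Continuous.inv₀ (continuous_const.sub (continuous_const.mul (D.dc 1))) fun θ => ?_
  have := D.den θ
  linarith [this.1, this.2.1]

lemma y_one (D : Dat hs κ x p d) (θ : ℝ) : 1 ≤ yy κ d θ := by
  have h := D.den θ
  unfold yy
  exact (one_le_inv₀ (by linarith)).2 h.2.2

lemma y_le (D : Dat hs κ x p d) (θ : ℝ) : yy κ d θ ≤ (1 - 3 * κ)⁻¹ := by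
  have h := D.den θ
  unfold yy
  exact inv_anti₀ (by linarith) h.1

lemma Y_le (D : Dat hs κ x p d) : (1 - 3 * κ)⁻¹ ≤ 4 / 3 := by
  have h := D.den 0
  rw [inv_le_comm₀ (by linarith) (by norm_num)]
  linarith [h.2.1]

lemma sz_pos (D : Dat hs κ x p d) {A : Finset (Fin m)} (hA : A ∈ univ.erase (∅ : Finset (Fin m))) :
    1 ≤ sz hs A := by
  have hne : A.Nonempty := Finset.nonempty_iff_ne_empty.2 (Finset.mem_erase.1 hA).1
  obtain ⟨c, hc⟩ := hne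
  unfold sz
  exact (D.hs1 c).trans (Finset.single_le_sum (f := hs) (fun i _ => Nat.zero_le _) hc)

lemma sz_le (A : Finset (Fin m)) : sz hs A ≤ ∑ c, hs c := by
  unfold sz
  exact Finset.sum_le_sum_of_subset (Finset.subset_univ A)

lemma dA_le (D : Dat hs κ x p d) {A : Finset (Fin m)} (hA : A ∈ univ.erase (∅ : Finset (Fin m))) (θ : ℝ) :
    d (sz hs A) θ ≤ (2 * ((∑ c, hs c : ℕ) : ℝ) ^ 2) * d 1 θ := by
  refine (D.d2 _ (D.sz_pos hA) (sz_le A) θ).trans ?_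
  refine mul_le_mul_of_nonneg_right ?_ (D.d0 1 θ)
  have h1 : ((sz hs A : ℕ) : ℝ) ≤ ((∑ c, hs c : ℕ) : ℝ) := by exact_mod_cast sz_le A
  have h2 : (0 : ℝ) ≤ (sz hs A : ℕ) := Nat.cast_nonneg _
  nlinarith

lemma sA_ge (D : Dat hs κ x p d) {A : Finset (Fin m)} (hA : A ∈ univ.erase (∅ : Finset (Fin m))) :
    Real.sinh (sz hs A * x) ≤ sA hs κ d A ∧ sz hs A * x ≤ Real.sinh (sz hs A * x) ∧ x ≤ sz hs A * x := by
  have h1 : (1 : ℝ) ≤ sz hs A := by exact_mod_cast D.sz_pos hA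
  have h0 := D.x0
  refine ⟨?_, ?_, by nlinarith⟩
  · rw [← D.dm]
    unfold sA
    refine av_mono (D.dc _) ((D.dc _).mul D.y_cont) fun θ => ?_
    have h2 := D.y_one θ
    have h3 := D.d0 (sz hs A) θ
    nlinarith
  · exact Real.self_le_sinh_iff.2 (by positivity)

lemma sA_pos (D : Dat hs κ x p d) {A : Finset (Fin m)} (hA : A ∈ univ.erase (∅ : Finset (Fin m))) :
    0 < sA hs κ d A ∧ x ≤ sA hs κ d A := by
  obtain ⟨h1, h2, h3⟩ := D.sA_ge hA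
  have h0 := D.x0
  exact ⟨by linarith, by linarith⟩

lemma prod_inv_le (D : Dat hs κ x p d) (A : Finset (Fin m)) :
    0 < ∏ c ∈ A, (1 - p c) ∧ (∏ c ∈ A, (1 - p c))⁻¹ ≤ 2 ^ m := by
  have h1 : ∀ c, (1 / 2 : ℝ) ≤ 1 - p c := fun c => by linarith [(D.hp c).2]
  have h2 : 0 < ∏ c ∈ A, (1 - p c) := Finset.prod_pos fun c _ => by linarith [h1 c]
  refine ⟨h2, ?_⟩
  have h3 : (1 / 2 : ℝ) ^ A.card ≤ ∏ c ∈ A, (1 - p c) := by
    rw [← Finset.prod_const]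
    exact Finset.prod_le_prod (fun _ _ => by norm_num) fun c _ => h1 c
  have h4 : A.card ≤ m := by
    have := Finset.card_le_univ A
    rwa [Fintype.card_fin] at this
  have h5 : (1 / 2 : ℝ) ^ m ≤ (1 / 2 : ℝ) ^ A.card := pow_le_pow_of_le_one (by norm_num) (by norm_num) h4
  rw [inv_le_comm₀ h2 (by positivity)]
  calc ((2 : ℝ) ^ m)⁻¹ = (1 / 2) ^ m := by rw [one_div, inv_pow]
    _ ≤ _ := h5.trans h3

lemma sinh_one (D : Dat hs κ x p d) : AV (d 1) ≤ 2 * x := by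
  rw [D.dm, Nat.cast_one, one_mul]
  exact sinh_le D.x0.le D.x1

end Dat

/-- linear combinations of the functions `c_{sz A}` -/
noncomputable def de {m : ℕ} (hs : Fin m → ℕ) (p : Fin m → ℝ) (d : ℕ → ℝ → ℝ) (a : Finset (Fin m) → ℝ)
    (X : Finset (Fin m)) (θ : ℝ) : ℝ := ∑ A ∈ univ.erase (∅ : Finset (Fin m)), a A * d (sz hs A) θ * ee p A X

namespace Dat

lemma de_cont (D : Dat hs κ x p d) (a : Finset (Fin m) → ℝ) (X : Finset (Fin m)) : Continuous (de hs p d a X) := by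
  unfold de
  exact continuous_finsetSum _ fun A _ => (continuous_const.mul (D.dc _)).mul continuous_const

lemma de_av (D : Dat hs κ x p d) (a : Finset (Fin m) → ℝ) (X : Finset (Fin m)) :
    AV (fun θ => de hs p d a X θ * yy κ d θ) =
      ∑ A ∈ univ.erase (∅ : Finset (Fin m)), a A * sA hs κ d A * ee p A X := by
  have h1 : (fun θ => de hs p d a X θ * yy κ d θ) = fun θ => ∑ A ∈ univ.erase (∅ : Finset (Fin m)),
      (a A * ee p A X) * (d (sz hs A) θ * yy κ d θ) := by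
    funext θ
    unfold de
    rw [Finset.sum_mul]
    refine Finset.sum_congr rfl fun A _ => by ring
  rw [h1, av_sum _ (fun A θ => a A * ee p A X * (d (sz hs A) θ * yy κ d θ))
    fun A _ => continuous_const.mul ((D.dc _).mul D.y_cont)]
  refine Finset.sum_congr rfl fun A _ => ?_
  rw [av_mul]
  unfold sA
  ring

lemma de_bound (D : Dat hs κ x p d) (a : Finset (Fin m) → ℝ) (M : ℝ) (hM : 0 ≤ M)
    (ha : ∀ A ∈ univ.erase (∅ : Finset (Fin m)), |a A| ≤ M) (X : Finset (Fin m)) (θ : ℝ) :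
    |de hs p d a X θ| ≤ 2 ^ m * M * (2 * ((∑ c, hs c : ℕ) : ℝ) ^ 2) * d 1 θ :=
  sum_bound D.hp X a (fun A => d (sz hs A) θ) M _ _ hM (by positivity) (D.d0 1 θ) ha
    fun A hA => ⟨D.d0 _ θ, D.dA_le hA θ⟩

end Dat

/-- the coefficients of the first order -/
noncomputable def a1 {m : ℕ} (hs : Fin m → ℕ) (κ x : ℝ) (p : Fin m → ℝ) (d : ℕ → ℝ → ℝ) (B : ℝ)
    (A : Finset (Fin m)) : ℝ := -(B * x * ((-1) ^ A.card * (∏ c ∈ A, (1 - p c))⁻¹) / sA hs κ d A)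

/-- the quadratic term -/
noncomputable def QQ {m : ℕ} (hs : Fin m → ℕ) (κ x : ℝ) (p : Fin m → ℝ) (d : ℕ → ℝ → ℝ) (B : ℝ)
    (X : Finset (Fin m)) : ℝ := 1 / 2 * AV (fun θ => de hs p d (a1 hs κ x p d B) X θ ^ 2 * yy κ d θ ^ 2)

namespace Dat

lemma a1_le (D : Dat hs κ x p d) {B : ℝ} (hB : 0 < B) {A : Finset (Fin m)}
    (hA : A ∈ univ.erase (∅ : Finset (Fin m))) : |a1 hs κ x p d B A| ≤ 2 ^ m * B := by
  obtain ⟨h1, h2⟩ := D.sA_pos hA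
  obtain ⟨h3, h4⟩ := D.prod_inv_le A
  have h0 := D.x0
  unfold a1
  rw [abs_neg, abs_div, abs_mul, abs_mul, abs_mul, abs_pow, abs_neg, abs_one, one_pow, one_mul,
    abs_of_pos h1, abs_of_pos hB, abs_of_pos h0, abs_of_pos (inv_pos.2 h3), div_le_iff₀ h1]
  calc B * x * (∏ c ∈ A, (1 - p c))⁻¹ ≤ B * sA hs κ d A * 2 ^ m :=
        mul_le_mul (mul_le_mul_of_nonneg_left h2 hB.le) h4 (inv_pos.2 h3).le (by positivity)
    _ = 2 ^ m * B * sA hs κ d A := by ring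

lemma d1_sq (D : Dat hs κ x p d) (θ : ℝ) : d 1 θ ^ 2 ≤ 3 * d 1 θ := by
  have h1 := D.d3 θ
  have h2 := D.d0 1 θ
  nlinarith

lemma y_sq (D : Dat hs κ x p d) (θ : ℝ) : 0 ≤ yy κ d θ ∧ yy κ d θ ^ 2 ≤ 4 := by
  have h1 := D.y_one θ
  have h2 := (D.y_le θ).trans D.Y_le
  constructor
  · linarith
  · nlinarith

lemma QQ_le (D : Dat hs κ x p d) {B M1 : ℝ} (hB : 0 < B)
    (hM1 : M1 = 2 ^ m * 2 ^ m * (2 * ((∑ c, hs c : ℕ) : ℝ) ^ 2)) (X : Finset (Fin m)) :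
    |QQ hs κ x p d B X| ≤ 12 * M1 ^ 2 * B ^ 2 * x := by
  have hM0 : 0 ≤ M1 := by rw [hM1]; positivity
  have h1 : ∀ θ, |de hs p d (a1 hs κ x p d B) X θ| ≤ M1 * B * d 1 θ := by
    intro θ
    refine (D.de_bound _ (2 ^ m * B) (by positivity) (fun A hA => D.a1_le hB hA) X θ).trans (le_of_eq ?_)
    rw [hM1]; ring
  have hc : Continuous (fun θ => de hs p d (a1 hs κ x p d B) X θ ^ 2 * yy κ d θ ^ 2) :=
    ((D.de_cont _ X).pow 2).mul (D.y_cont.pow 2)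
  have h2 : ∀ θ, de hs p d (a1 hs κ x p d B) X θ ^ 2 * yy κ d θ ^ 2 ≤ (12 * M1 ^ 2 * B ^ 2) * d 1 θ := by
    intro θ
    have e1 : de hs p d (a1 hs κ x p d B) X θ ^ 2 ≤ (M1 * B) ^ 2 * (3 * d 1 θ) := by
      rw [← sq_abs]
      calc |de hs p d (a1 hs κ x p d B) X θ| ^ 2 ≤ (M1 * B * d 1 θ) ^ 2 :=
            pow_le_pow_left₀ (abs_nonneg _) (h1 θ) 2
        _ = (M1 * B) ^ 2 * d 1 θ ^ 2 := by ring
        _ ≤ (M1 * B) ^ 2 * (3 * d 1 θ) := mul_le_mul_of_nonneg_left (D.d1_sq θ) (by positivity)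
    have e2 := (D.y_sq θ).2
    have e3 := D.d0 1 θ
    calc de hs p d (a1 hs κ x p d B) X θ ^ 2 * yy κ d θ ^ 2 ≤ ((M1 * B) ^ 2 * (3 * d 1 θ)) * 4 :=
          mul_le_mul e1 e2 (sq_nonneg _) (by positivity)
      _ = (12 * M1 ^ 2 * B ^ 2) * d 1 θ := by ring
  have h3 : AV (fun θ => de hs p d (a1 hs κ x p d B) X θ ^ 2 * yy κ d θ ^ 2) ≤
      (12 * M1 ^ 2 * B ^ 2) * (2 * x) := by
    refine (av_mono (g := fun θ => (12 * M1 ^ 2 * B ^ 2) * d 1 θ) hc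
      (continuous_const.mul (D.dc 1)) h2).trans ?_
    rw [av_mul]
    exact mul_le_mul_of_nonneg_left D.sinh_one (by positivity)
  have h4 : 0 ≤ AV (fun θ => de hs p d (a1 hs κ x p d B) X θ ^ 2 * yy κ d θ ^ 2) := by
    have := av_mono (continuous_const (y := (0 : ℝ))) hc fun θ => by positivity
    refine le_trans (le_of_eq ?_) this
    have h5 := av_mul 0 (fun _ => (1 : ℝ))
    simp only [zero_mul] at h5
    exact h5.symm
  unfold QQ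
  rw [abs_of_nonneg (by positivity)]
  linarith

/-- orthogonality -/
lemma sq_mean (hC : S_CUBE) (hp : ∀ c, 0 ≤ p c ∧ p c ≤ 1 / 2) (a : Finset (Fin m) → ℝ) (θ : ℝ) :
    ∑ X, wc p X * de hs p d a X θ ^ 2 = ∑ A ∈ univ.erase (∅ : Finset (Fin m)),
      (a A ^ 2 * ∏ c ∈ A, p c * (1 - p c)) * d (sz hs A) θ ^ 2 := by
  obtain ⟨-, -, c3, -⟩ := hC m p hp
  have h1 : ∀ X, wc p X * de hs p d a X θ ^ 2 = ∑ A ∈ univ.erase (∅ : Finset (Fin m)),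
      ∑ A' ∈ univ.erase (∅ : Finset (Fin m)), (a A * d (sz hs A) θ * (a A' * d (sz hs A') θ)) *
        (wc p X * (ee p A X * ee p A' X)) := by
    intro X
    unfold de
    rw [sq, Finset.sum_mul_sum, Finset.mul_sum]
    refine Finset.sum_congr rfl fun A _ => ?_
    rw [Finset.mul_sum]
    refine Finset.sum_congr rfl fun A' _ => by ring
  rw [Finset.sum_congr rfl fun X _ => h1 X, Finset.sum_comm]
  refine Finset.sum_congr rfl fun A hA => ?_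
  rw [Finset.sum_comm]
  have h2 : ∀ A' ∈ univ.erase (∅ : Finset (Fin m)), ∑ X : Finset (Fin m),
      (a A * d (sz hs A) θ * (a A' * d (sz hs A') θ)) * (wc p X * (ee p A X * ee p A' X)) =
      if A = A' then (a A ^ 2 * ∏ c ∈ A, p c * (1 - p c)) * d (sz hs A) θ ^ 2 else 0 := by
    intro A' _
    rw [← Finset.mul_sum, c3]
    split_ifs with h
    · subst h; ring
    · rw [mul_zero]
  rw [Finset.sum_congr rfl h2, Finset.sum_ite_eq, if_pos hA]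

/-- one term of the quadratic form -/
lemma term_le (D : Dat hs κ x p d) {B : ℝ} (hB : 0 < B) {A : Finset (Fin m)}
    (hA : A ∈ univ.erase (∅ : Finset (Fin m))) :
    (a1 hs κ x p d B A ^ 2 * ∏ c ∈ A, p c * (1 - p c)) *
      AV (fun θ => d (sz hs A) θ ^ 2 * yy κ d θ ^ 2) ≤
    ((1 - 3 * κ)⁻¹) ^ 2 * Real.cosh (((∑ c, hs c : ℕ) : ℝ) * x) *
      ((∏ c ∈ A, p c / (1 - p c)) / (sz hs A : ℝ)) * (B ^ 2 * x) := by
  obtain ⟨h1, h2, h3⟩ := D.sA_ge hA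
  obtain ⟨h4, h5⟩ := D.sA_pos hA
  obtain ⟨h6, -⟩ := D.prod_inv_le A
  have hx := D.x0
  have hs1 : (1 : ℝ) ≤ sz hs A := by exact_mod_cast D.sz_pos hA
  have hsS : ((sz hs A : ℕ) : ℝ) ≤ ((∑ c, hs c : ℕ) : ℝ) := by exact_mod_cast sz_le A
  have hY : 0 ≤ (1 - 3 * κ)⁻¹ := by
    have := D.den 0
    exact inv_nonneg.2 (by linarith)
  -- the mean of the square
  have e1 : AV (fun θ => d (sz hs A) θ ^ 2 * yy κ d θ ^ 2) ≤
      ((1 - 3 * κ)⁻¹) ^ 2 * (sA hs κ d A * Real.cosh (((∑ c, hs c : ℕ) : ℝ) * x)) := by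
    have e2 : AV (fun θ => d (sz hs A) θ ^ 2 * yy κ d θ ^ 2) ≤
        AV (fun θ => ((1 - 3 * κ)⁻¹) ^ 2 * (d (sz hs A) θ ^ 2)) := by
      refine av_mono (((D.dc _).pow 2).mul (D.y_cont.pow 2)) (continuous_const.mul ((D.dc _).pow 2)) ?_
      intro θ
      have e3 : yy κ d θ ^ 2 ≤ ((1 - 3 * κ)⁻¹) ^ 2 :=
        pow_le_pow_left₀ (D.y_sq θ).1 (D.y_le θ) 2
      have e4 : 0 ≤ d (sz hs A) θ ^ 2 := sq_nonneg _
      nlinarith
    refine e2.trans ?_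
    rw [av_mul (((1 - 3 * κ)⁻¹) ^ 2) (fun θ => d (sz hs A) θ ^ 2), D.dq]
    refine mul_le_mul_of_nonneg_left ?_ (sq_nonneg _)
    refine mul_le_mul h1 ?_ (Real.cosh_pos _).le h4.le
    rw [Real.cosh_le_cosh, abs_of_nonneg (by positivity), abs_of_nonneg (by positivity)]
    exact mul_le_mul_of_nonneg_right hsS hx.le
  -- the coefficient
  have e5 : a1 hs κ x p d B A ^ 2 * ∏ c ∈ A, p c * (1 - p c) =
      B ^ 2 * x ^ 2 * (∏ c ∈ A, p c / (1 - p c)) / sA hs κ d A ^ 2 := by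
    unfold a1
    have e6 : ((∏ c ∈ A, (1 - p c))⁻¹) ^ 2 * ∏ c ∈ A, p c * (1 - p c) = ∏ c ∈ A, p c / (1 - p c) := by
      rw [Finset.prod_mul_distrib, Finset.prod_div_distrib]
      field_simp
    have e7 : ((-1 : ℝ) ^ A.card) ^ 2 = 1 := by
      rw [← pow_mul, mul_comm, pow_mul]; norm_num
    calc (-(B * x * ((-1) ^ A.card * (∏ c ∈ A, (1 - p c))⁻¹) / sA hs κ d A)) ^ 2 * ∏ c ∈ A, p c * (1 - p c)
        = B ^ 2 * x ^ 2 * (((-1 : ℝ) ^ A.card) ^ 2) *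
          (((∏ c ∈ A, (1 - p c))⁻¹) ^ 2 * ∏ c ∈ A, p c * (1 - p c)) / sA hs κ d A ^ 2 := by ring
      _ = _ := by rw [e6, e7, mul_one]
  have hW : 0 ≤ ∏ c ∈ A, p c / (1 - p c) := by
    refine Finset.prod_nonneg fun c _ => ?_
    have := D.hp c
    exact div_nonneg this.1 (by linarith)
  rw [e5]
  calc B ^ 2 * x ^ 2 * (∏ c ∈ A, p c / (1 - p c)) / sA hs κ d A ^ 2 *
        AV (fun θ => d (sz hs A) θ ^ 2 * yy κ d θ ^ 2)
      ≤ B ^ 2 * x ^ 2 * (∏ c ∈ A, p c / (1 - p c)) / sA hs κ d A ^ 2 *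
        (((1 - 3 * κ)⁻¹) ^ 2 * (sA hs κ d A * Real.cosh (((∑ c, hs c : ℕ) : ℝ) * x))) :=
        mul_le_mul_of_nonneg_left e1 (by positivity)
    _ = (((1 - 3 * κ)⁻¹) ^ 2 * Real.cosh (((∑ c, hs c : ℕ) : ℝ) * x) * (∏ c ∈ A, p c / (1 - p c)) *
        (B ^ 2 * x)) * (x / sA hs κ d A) := by field_simp
    _ ≤ (((1 - 3 * κ)⁻¹) ^ 2 * Real.cosh (((∑ c, hs c : ℕ) : ℝ) * x) * (∏ c ∈ A, p c / (1 - p c)) *
        (B ^ 2 * x)) * (1 / (sz hs A : ℝ)) := by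
        refine mul_le_mul_of_nonneg_left ?_ ?_
        · rw [div_le_div_iff₀ h4 (by linarith)]
          linarith
        · have := Real.cosh_pos (((∑ c, hs c : ℕ) : ℝ) * x)
          positivity
    _ = _ := by ring

/-- the mean of the quadratic term over the cube -/
lemma QQ_mean (D : Dat hs κ x p d) (hC : S_CUBE) {B : ℝ} (hB : 0 < B) :
    ∑ X, wc p X * QQ hs κ x p d B X ≤ x * ((1 / 2 * ((1 - 3 * κ)⁻¹) ^ 2 *
      Real.cosh (((∑ c, hs c : ℕ) : ℝ) * x)) *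
      (∑ A ∈ univ.erase (∅ : Finset (Fin m)), (∏ c ∈ A, p c / (1 - p c)) / (sz hs A : ℝ)) * B ^ 2) := by
  set a := a1 hs κ x p d B with ha
  have hc : ∀ X, Continuous (fun θ => de hs p d a X θ ^ 2 * yy κ d θ ^ 2) := fun X =>
    ((D.de_cont _ X).pow 2).mul (D.y_cont.pow 2)
  have h1 : ∑ X, wc p X * QQ hs κ x p d B X =
      1 / 2 * AV (fun θ => ∑ X, wc p X * (de hs p d a X θ ^ 2 * yy κ d θ ^ 2)) := by
    rw [av_sum univ (fun X θ => wc p X * (de hs p d a X θ ^ 2 * yy κ d θ ^ 2))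
      fun X _ => continuous_const.mul (hc X), Finset.mul_sum]
    refine Finset.sum_congr rfl fun X _ => ?_
    rw [av_mul (wc p X) (fun θ => de hs p d a X θ ^ 2 * yy κ d θ ^ 2)]
    unfold QQ
    ring
  have h2 : (fun θ => ∑ X, wc p X * (de hs p d a X θ ^ 2 * yy κ d θ ^ 2)) = fun θ =>
      ∑ A ∈ univ.erase (∅ : Finset (Fin m)), (a A ^ 2 * ∏ c ∈ A, p c * (1 - p c)) *
        (d (sz hs A) θ ^ 2 * yy κ d θ ^ 2) := by
    funext θ
    have h3 := sq_mean (hs := hs) (d := d) hC D.hp a θ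
    have h4 : ∑ X, wc p X * (de hs p d a X θ ^ 2 * yy κ d θ ^ 2) =
        (∑ X, wc p X * de hs p d a X θ ^ 2) * yy κ d θ ^ 2 := by
      rw [Finset.sum_mul]
      refine Finset.sum_congr rfl fun X _ => by ring
    rw [h4, h3, Finset.sum_mul]
    refine Finset.sum_congr rfl fun A _ => by ring
  rw [h1, h2, av_sum _ (fun A θ => (a A ^ 2 * ∏ c ∈ A, p c * (1 - p c)) *
        (d (sz hs A) θ ^ 2 * yy κ d θ ^ 2))
      fun A _ => continuous_const.mul (((D.dc _).pow 2).mul (D.y_cont.pow 2))]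
  have h5 : ∑ A ∈ univ.erase (∅ : Finset (Fin m)), AV (fun θ => (a A ^ 2 * ∏ c ∈ A, p c * (1 - p c)) *
        (d (sz hs A) θ ^ 2 * yy κ d θ ^ 2)) ≤ ∑ A ∈ univ.erase (∅ : Finset (Fin m)),
        ((1 - 3 * κ)⁻¹) ^ 2 * Real.cosh (((∑ c, hs c : ℕ) : ℝ) * x) *
          ((∏ c ∈ A, p c / (1 - p c)) / (sz hs A : ℝ)) * (B ^ 2 * x) := by
    refine Finset.sum_le_sum fun A hA => ?_
    rw [av_mul (a A ^ 2 * ∏ c ∈ A, p c * (1 - p c)) (fun θ => d (sz hs A) θ ^ 2 * yy κ d θ ^ 2)]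
    exact D.term_le hB hA
  have h6 : ∑ A ∈ univ.erase (∅ : Finset (Fin m)),
        ((1 - 3 * κ)⁻¹) ^ 2 * Real.cosh (((∑ c, hs c : ℕ) : ℝ) * x) *
          ((∏ c ∈ A, p c / (1 - p c)) / (sz hs A : ℝ)) * (B ^ 2 * x) =
      ((1 - 3 * κ)⁻¹) ^ 2 * Real.cosh (((∑ c, hs c : ℕ) : ℝ) * x) *
          (∑ A ∈ univ.erase (∅ : Finset (Fin m)), (∏ c ∈ A, p c / (1 - p c)) / (sz hs A : ℝ)) * (B ^ 2 * x) := by
    rw [Finset.mul_sum, Finset.sum_mul]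
  rw [h6] at h5
  linarith

end Dat

end Pool.Agent.Run7.h743.NW
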