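import Pool.Agent.Run7.h743.NW.Core

/-! Project NWS, piece WIN (helper743): the averages in one window. -/

set_option autoImplicit false

open Finset

namespace Pool.Agent.Run7.h743.NW

open Pool.Agent.N422.NW Pool.Agent.N422.NWS

variable {m : ℕ} {hs : Fin m → ℕ} {κ x : ℝ} {p : Fin m → ℝ} {d : ℕ → ℝ → ℝ}

/-- the choice of the coefficients -/
theorem core (D : Dat hs κ x p d) (hC : S_CUBE) {B M1 P2 M2 : ℝ} (hB : 0 < B) (hB1 : B ≤ 1)
    (hM1 : M1 = 2 ^ m * 2 ^ m * (2 * ((∑ c, hs c : ℕ) : ℝ) ^ 2)) (hP2 : P2 = 2 ^ m * (12 * M1 ^ 2))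
    (hM2 : M2 = 2 ^ m * P2 * (2 * ((∑ c, hs c : ℕ) : ℝ) ^ 2)) (hBk : (M1 + M2) * B ≤ κ) :
    ∃ a : Finset (Fin m) → ℝ, (∀ A ∈ univ.erase (∅ : Finset (Fin m)), |a A| ≤ (2 ^ m + P2) * B) ∧
      ∀ X : Finset (Fin m), x * (B * ((if X = ∅ then (∏ c, (1 - p c))⁻¹ else 0) - 1) -
        (1 / 2 * ((1 - 3 * κ)⁻¹) ^ 2 * Real.cosh (((∑ c, hs c : ℕ) : ℝ) * x)) *
          (∑ A ∈ univ.erase (∅ : Finset (Fin m)), (∏ c ∈ A, p c / (1 - p c)) / (sz hs A : ℝ)) * B ^ 2 -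
        2 * (6 * (2 * M1 * M2 + M2 ^ 2) + 144 * (M1 + M2) ^ 3) * B ^ 3) ≤
      AV (fun θ => Real.log (1 - de hs p d a X θ * yy κ d θ)) := by
  obtain ⟨c1, c2, -, -⟩ := hC m p D.hp
  have hM0 : 0 ≤ M1 := by rw [hM1]; positivity
  have hP0 : 0 ≤ P2 := by rw [hP2]; positivity
  have hM20 : 0 ≤ M2 := by rw [hM2]; positivity
  have hx := D.x0
  obtain ⟨Qh, q1, q2, q3⟩ := c1 (QQ hs κ x p d B) (12 * M1 ^ 2 * B ^ 2 * x) fun X => D.QQ_le hB hM1 X
  set b1 := a1 hs κ x p d B with hb1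
  set b2 : Finset (Fin m) → ℝ := fun A => -(Qh A / sA hs κ d A) with hb2
  have k1 : ∀ A ∈ univ.erase (∅ : Finset (Fin m)), |b1 A| ≤ 2 ^ m * B := fun A hA => D.a1_le hB hA
  have k2 : ∀ A ∈ univ.erase (∅ : Finset (Fin m)), |b2 A| ≤ P2 * B ^ 2 := by
    intro A hA
    obtain ⟨h1, h2⟩ := D.sA_pos hA
    rw [hb2]
    simp only
    rw [abs_neg, abs_div, abs_of_pos h1, div_le_iff₀ h1]
    calc |Qh A| ≤ 2 ^ m * (12 * M1 ^ 2 * B ^ 2 * x) := q1 A
      _ = P2 * B ^ 2 * x := by rw [hP2]; ring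
      _ ≤ P2 * B ^ 2 * sA hs κ d A := mul_le_mul_of_nonneg_left h2 (by positivity)
  have l1 : ∀ X θ, |de hs p d b1 X θ| ≤ M1 * B * d 1 θ := by
    intro X θ
    refine (D.de_bound b1 (2 ^ m * B) (by positivity) k1 X θ).trans (le_of_eq ?_)
    rw [hM1]; ring
  have l2 : ∀ X θ, |de hs p d b2 X θ| ≤ M2 * B ^ 2 * d 1 θ := by
    intro X θ
    refine (D.de_bound b2 (P2 * B ^ 2) (by positivity) k2 X θ).trans (le_of_eq ?_)
    rw [hM2]; ring
  refine ⟨fun A => b1 A + b2 A, ?_, ?_⟩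
  · intro A hA
    refine (abs_add_le _ _).trans ?_
    have h1 := k1 A hA
    have h2 := k2 A hA
    have h3 : P2 * B ^ 2 ≤ P2 * B := by
      refine mul_le_mul_of_nonneg_left ?_ hP0
      nlinarith
    linarith
  intro X
  have hde : ∀ θ, de hs p d (fun A => b1 A + b2 A) X θ = de hs p d b1 X θ + de hs p d b2 X θ := by
    intro θ
    unfold de
    rw [← Finset.sum_add_distrib]
    refine Finset.sum_congr rfl fun A _ => by ring
  -- the linear terms
  have E1 : AV (fun θ => de hs p d b1 X θ * yy κ d θ) =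
      -(B * x * ((if X = ∅ then (∏ c, (1 - p c))⁻¹ else 0) - 1)) := by
    rw [D.de_av, c2 X, ← Finset.add_sum_erase _ _ (Finset.mem_univ (∅ : Finset (Fin m)))]
    rw [Finset.card_empty, pow_zero, Finset.prod_empty, inv_one, ee_empty, mul_one, mul_one, add_sub_cancel_left,
      Finset.mul_sum, ← Finset.sum_neg_distrib]
    refine Finset.sum_congr rfl fun A hA => ?_
    have h1 := (D.sA_pos hA).1
    rw [hb1]
    unfold a1
    field_simp
  have E2 : AV (fun θ => de hs p d b2 X θ * yy κ d θ) = -(QQ hs κ x p d B X - Qh ∅) := by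
    rw [D.de_av, q3 X, ← Finset.add_sum_erase _ _ (Finset.mem_univ (∅ : Finset (Fin m)))]
    rw [ee_empty, mul_one, add_sub_cancel_left, ← Finset.sum_neg_distrib]
    refine Finset.sum_congr rfl fun A hA => ?_
    have h1 := (D.sA_pos hA).1
    rw [hb2]
    field_simp
  have E3 := D.QQ_mean hC hB
  rw [← q2] at E3
  -- the pointwise bound
  set C' : ℝ := 6 * (2 * M1 * M2 + M2 ^ 2) + 144 * (M1 + M2) ^ 3 with hC'
  have hy1 : ∀ θ, |(de hs p d b1 X θ + de hs p d b2 X θ) * yy κ d θ| ≤ 1 / 2 ∧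
      |(de hs p d b1 X θ + de hs p d b2 X θ)| ≤ (M1 + M2) * B * d 1 θ := by
    intro θ
    have h1 := l1 X θ
    have h2 := l2 X θ
    have h3 := D.d0 1 θ
    have h4 : |de hs p d b1 X θ + de hs p d b2 X θ| ≤ (M1 + M2) * B * d 1 θ := by
      refine (abs_add_le _ _).trans ?_
      have h5 : M2 * B ^ 2 * d 1 θ ≤ M2 * B * d 1 θ := by
        refine mul_le_mul_of_nonneg_right (mul_le_mul_of_nonneg_left ?_ hM20) h3
        nlinarith
      linarith
    refine ⟨?_, h4⟩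
    have h6 := (D.y_sq θ).1
    have h7 := (D.y_le θ).trans D.Y_le
    rw [abs_mul, abs_of_nonneg h6]
    have h8 : (M1 + M2) * B * d 1 θ ≤ 1 / 4 := by
      have h9 : (M1 + M2) * B * d 1 θ ≤ κ * d 1 θ := mul_le_mul_of_nonneg_right hBk h3
      have h10 := D.d3 θ
      have h11 := D.k1
      have h12 := D.k0
      nlinarith
    calc |de hs p d b1 X θ + de hs p d b2 X θ| * yy κ d θ ≤ (1 / 4) * (4 / 3) :=
          mul_le_mul (h4.trans h8) h7 h6 (by norm_num)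
      _ ≤ 1 / 2 := by norm_num
  have hpt : ∀ θ, (-1) * (de hs p d b1 X θ * yy κ d θ) + ((-1) * (de hs p d b2 X θ * yy κ d θ) +
      ((-(1 / 2)) * (de hs p d b1 X θ ^ 2 * yy κ d θ ^ 2) + (-(C' * B ^ 3)) * d 1 θ)) ≤
      Real.log (1 - de hs p d (fun A => b1 A + b2 A) X θ * yy κ d θ) := by
    intro θ
    rw [hde θ]
    obtain ⟨h1, h2⟩ := hy1 θ
    refine le_trans ?_ (log_ge h1)
    set e1 := de hs p d b1 X θ with he1
    set e2 := de hs p d b2 X θ with he2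
    set y := yy κ d θ with hy
    set w := d 1 θ with hw
    have hw0 : 0 ≤ w := D.d0 1 θ
    have hw3 : w ≤ 3 := D.d3 θ
    have hyn : 0 ≤ y := (D.y_sq θ).1
    have hy4 : y ^ 2 ≤ 4 := (D.y_sq θ).2
    have hy2 : y ≤ 2 := by nlinarith
    have g1 : |e1| ≤ M1 * B * w := l1 X θ
    have g2 : |e2| ≤ M2 * B ^ 2 * w := l2 X θ
    -- the mixed terms
    have g3 : 2 * e1 * e2 + e2 ^ 2 ≤ (2 * M1 * M2 + M2 ^ 2) * B ^ 3 * w ^ 2 := by
      have r1 : e1 * e2 ≤ (M1 * B * w) * (M2 * B ^ 2 * w) := by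
        refine (le_abs_self _).trans ?_
        rw [abs_mul]
        exact mul_le_mul g1 g2 (abs_nonneg _) (by positivity)
      have r2 : e2 ^ 2 ≤ (M2 * B ^ 2 * w) ^ 2 := by
        rw [← sq_abs]
        exact pow_le_pow_left₀ (abs_nonneg _) g2 2
      have r3 : (M2 * B ^ 2 * w) ^ 2 ≤ M2 ^ 2 * B ^ 3 * w ^ 2 := by
        have : B ^ 4 ≤ B ^ 3 := pow_le_pow_of_le_one hB.le hB1 (by norm_num)
        calc (M2 * B ^ 2 * w) ^ 2 = (M2 ^ 2 * w ^ 2) * B ^ 4 := by ring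
          _ ≤ (M2 ^ 2 * w ^ 2) * B ^ 3 := mul_le_mul_of_nonneg_left this (by positivity)
          _ = _ := by ring
      nlinarith
    have g4 : (2 * e1 * e2 + e2 ^ 2) * y ^ 2 ≤ 12 * (2 * M1 * M2 + M2 ^ 2) * B ^ 3 * w := by
      have r0 : 0 ≤ (2 * M1 * M2 + M2 ^ 2) * B ^ 3 * w ^ 2 := by positivity
      calc (2 * e1 * e2 + e2 ^ 2) * y ^ 2 ≤ ((2 * M1 * M2 + M2 ^ 2) * B ^ 3 * w ^ 2) * y ^ 2 :=
            mul_le_mul_of_nonneg_right g3 (sq_nonneg _)
        _ ≤ ((2 * M1 * M2 + M2 ^ 2) * B ^ 3 * w ^ 2) * 4 := mul_le_mul_of_nonneg_left hy4 r0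
        _ ≤ ((2 * M1 * M2 + M2 ^ 2) * B ^ 3 * (3 * w)) * 4 := by
            refine mul_le_mul_of_nonneg_right (mul_le_mul_of_nonneg_left ?_ (by positivity)) (by norm_num)
            nlinarith
        _ = _ := by ring
    have g5 : |(e1 + e2) * y| ^ 3 ≤ 72 * (M1 + M2) ^ 3 * B ^ 3 * w := by
      have r1 : |(e1 + e2) * y| ≤ ((M1 + M2) * B * w) * 2 := by
        rw [abs_mul, abs_of_nonneg hyn]
        exact mul_le_mul h2 hy2 hyn (by positivity)
      have r2 : w ^ 3 ≤ 9 * w := by nlinarith [mul_nonneg hw0 hw0]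
      calc |(e1 + e2) * y| ^ 3 ≤ (((M1 + M2) * B * w) * 2) ^ 3 := pow_le_pow_left₀ (abs_nonneg _) r1 3
        _ = 8 * ((M1 + M2) ^ 3 * B ^ 3) * w ^ 3 := by ring
        _ ≤ 8 * ((M1 + M2) ^ 3 * B ^ 3) * (9 * w) := mul_le_mul_of_nonneg_left r2 (by positivity)
        _ = _ := by ring
    have g6 : ((e1 + e2) * y) ^ 2 = e1 ^ 2 * y ^ 2 + (2 * e1 * e2 + e2 ^ 2) * y ^ 2 := by ring
    rw [g6, hC']
    nlinarith [g4, g5]
  -- integration
  have cy := D.y_cont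
  have n1 : Continuous (fun θ => de hs p d b1 X θ * yy κ d θ) := (D.de_cont _ X).mul cy
  have n2 : Continuous (fun θ => de hs p d b2 X θ * yy κ d θ) := (D.de_cont _ X).mul cy
  have n3 : Continuous (fun θ => de hs p d b1 X θ ^ 2 * yy κ d θ ^ 2) := ((D.de_cont _ X).pow 2).mul (cy.pow 2)
  have n4 : Continuous (fun θ => Real.log (1 - de hs p d (fun A => b1 A + b2 A) X θ * yy κ d θ)) := by
    refine Continuous.log (continuous_const.sub ((D.de_cont _ X).mul cy)) fun θ => ?_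
    have h1 := (hy1 θ).1
    rw [← hde θ, abs_le] at h1
    linarith [h1.2]
  have m1 := av_mono (f := fun θ => (-1) * (de hs p d b1 X θ * yy κ d θ) +
      ((-1) * (de hs p d b2 X θ * yy κ d θ) +
      ((-(1 / 2)) * (de hs p d b1 X θ ^ 2 * yy κ d θ ^ 2) + (-(C' * B ^ 3)) * d 1 θ)))
    ((continuous_const.mul n1).add ((continuous_const.mul n2).add ((continuous_const.mul n3).add
      (continuous_const.mul (D.dc 1))))) n4 hpt
  refine le_trans ?_ m1
  rw [av_add (f := fun θ => (-1) * (de hs p d b1 X θ * yy κ d θ))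
      (g := fun θ => (-1) * (de hs p d b2 X θ * yy κ d θ) +
      ((-(1 / 2)) * (de hs p d b1 X θ ^ 2 * yy κ d θ ^ 2) + (-(C' * B ^ 3)) * d 1 θ))
      (continuous_const.mul n1) ((continuous_const.mul n2).add ((continuous_const.mul n3).add
      (continuous_const.mul (D.dc 1)))),
    av_add (f := fun θ => (-1) * (de hs p d b2 X θ * yy κ d θ))
      (g := fun θ => (-(1 / 2)) * (de hs p d b1 X θ ^ 2 * yy κ d θ ^ 2) + (-(C' * B ^ 3)) * d 1 θ)
      (continuous_const.mul n2) ((continuous_const.mul n3).add (continuous_const.mul (D.dc 1))),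
    av_add (f := fun θ => (-(1 / 2)) * (de hs p d b1 X θ ^ 2 * yy κ d θ ^ 2))
      (g := fun θ => (-(C' * B ^ 3)) * d 1 θ) (continuous_const.mul n3) (continuous_const.mul (D.dc 1)),
    av_mul (-1) (fun θ => de hs p d b1 X θ * yy κ d θ), av_mul (-1) (fun θ => de hs p d b2 X θ * yy κ d θ),
    av_mul (-(1 / 2)) (fun θ => de hs p d b1 X θ ^ 2 * yy κ d θ ^ 2), av_mul (-(C' * B ^ 3)) (d 1), E1, E2]
  have hQ : AV (fun θ => de hs p d b1 X θ ^ 2 * yy κ d θ ^ 2) = 2 * QQ hs κ x p d B X := by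
    unfold QQ
    rw [hb1]
    ring
  rw [hQ]
  have hC0 : 0 ≤ C' * B ^ 3 := by
    rw [hC']; positivity
  have hs1 := D.sinh_one
  have h9 : C' * B ^ 3 * AV (d 1) ≤ C' * B ^ 3 * (2 * x) := mul_le_mul_of_nonneg_left hs1 hC0
  nlinarith [E3, h9]

lemma cr_nonneg {t : ℝ} {n : ℕ} {z : ℂ} (hz : ‖z‖ = 1) : 0 ≤ cr t n z := by
  unfold cr
  have h1 := Real.one_le_cosh (n * t)
  have h2 : (z ^ n).re ≤ 1 := by
    refine (Complex.re_le_norm _).trans ?_
    rw [norm_pow, hz, one_pow]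
  linarith

/-- the data of a window -/
theorem dat (h1 : S_TRIG) {m : ℕ} {hs : Fin m → ℕ} (hhs : ∀ c, 1 ≤ hs c) {κ t : ℝ} {p : Fin m → ℝ}
    (hp : ∀ c, 0 ≤ p c ∧ p c ≤ 1 / 2) (hκ : 0 < κ) (hκ1 : κ ≤ 1 / 12) {v : ℕ} (hv : 1 ≤ v) (ht : 0 < t)
    (hvt : v * t ≤ 1) (hS : ((∑ c, hs c : ℕ) : ℝ) * (v * t) ≤ 1) :
    Dat hs κ (v * t) p (fun h θ => cr t (v * h) (psi (Real.exp (-t)) (circleMap 0 1 θ))) := by
  obtain ⟨g1, g2⟩ := h1 v t hv ht hvt
  have hn : ∀ θ : ℝ, ‖psi (Real.exp (-t)) (circleMap 0 1 θ)‖ = 1 := fun θ =>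
    (t_AV 1 t ht).1 _ (by simp)
  have hv0 : (0 : ℝ) < v := by exact_mod_cast hv
  have hvt0 : 0 < (v : ℝ) * t := by positivity
  refine ⟨hhs, hκ, hκ1, hvt0, hvt, hp, fun h => (g2 (v * h)).1, fun h θ => cr_nonneg (hn θ), ?_, ?_, ?_, ?_⟩
  · intro θ
    rw [mul_one]
    exact (g1 _ (hn θ)).2.1
  · intro h hh1 hh2 θ
    rw [mul_one]
    refine (g1 _ (hn θ)).2.2 h hh1 (le_trans (mul_le_mul_of_nonneg_right ?_ hvt0.le) hS)
    exact_mod_cast hh2
  · intro h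
    have := (g2 (v * h)).2.1
    rw [av_eq] at this
    rw [this]
    push_cast
    ring_nf
  · intro h
    have := (g2 (v * h)).2.2
    rw [av_eq] at this
    rw [this]
    push_cast
    ring_nf

/-- **WIN** -/
theorem t_WIN (h1 : S_TRIG) (h2 : S_CUBE) : S_WIN := by
  intro m hs ε hhs hε
  set S : ℝ := ((∑ c, hs c : ℕ) : ℝ) with hS
  have hS0 : 0 ≤ S := Nat.cast_nonneg _
  set κ : ℝ := min (1 / 12) (ε / 24) with hκ
  have k0 : 0 < κ := lt_min (by norm_num) (by positivity)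
  have k1 : κ ≤ 1 / 12 := min_le_left _ _
  have k2 : κ ≤ ε / 24 := min_le_right _ _
  set M1 : ℝ := 2 ^ m * 2 ^ m * (2 * S ^ 2) with hM1
  set P2 : ℝ := 2 ^ m * (12 * M1 ^ 2) with hP2
  set M2 : ℝ := 2 ^ m * P2 * (2 * S ^ 2) with hM2
  have m1 : 0 ≤ M1 := by positivity
  have m2 : 0 ≤ P2 := by positivity
  have m3 : 0 ≤ M2 := by positivity
  set C' : ℝ := 6 * (2 * M1 * M2 + M2 ^ 2) + 144 * (M1 + M2) ^ 3 with hC'
  have m4 : 0 ≤ C' := by positivity
  set B0 : ℝ := min 1 (min (κ / (M1 + M2 + 1)) (ε / (2 * C' + 1))) with hB0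
  have b0 : 0 < B0 := lt_min one_pos (lt_min (by positivity) (by positivity))
  set υ0 : ℝ := min 1 (ε / 2) / (S + 1) with hυ
  have u0 : 0 < υ0 := div_pos (lt_min one_pos (by positivity)) (by positivity)
  have u1 : υ0 ≤ 1 := by
    rw [hυ, div_le_one (by positivity)]
    exact (min_le_left _ _).trans (by linarith)
  have u2 : S * υ0 ≤ min 1 (ε / 2) := by
    have h3 : 0 ≤ min 1 (ε / 2) := (lt_min one_pos (by positivity)).le
    rw [hυ, mul_div_assoc', div_le_iff₀ (by positivity)]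
    nlinarith
  refine ⟨κ, B0, υ0, k0, b0, u0, ?_⟩
  intro v t hv ht hvt p hp B hB hBB
  have hB1 : B ≤ 1 := hBB.trans (min_le_left _ _)
  have hB2 : B ≤ κ / (M1 + M2 + 1) := hBB.trans ((min_le_right _ _).trans (min_le_left _ _))
  have hB3 : B ≤ ε / (2 * C' + 1) := hBB.trans ((min_le_right _ _).trans (min_le_right _ _))
  have hBk : (M1 + M2) * B ≤ κ := by
    rw [le_div_iff₀ (by positivity)] at hB2
    nlinarith
  have hBC : 2 * C' * B ≤ ε := by
    rw [le_div_iff₀ (by positivity)] at hB3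
    nlinarith
  have hvt0 : 0 < (v : ℝ) * t := by
    have : (0 : ℝ) < v := by exact_mod_cast hv
    positivity
  have hSx : S * (v * t) ≤ min 1 (ε / 2) := (mul_le_mul_of_nonneg_left hvt hS0).trans u2
  have D := dat (p := p) h1 hhs hp k0 k1 hv ht (hvt.trans u1) (hSx.trans (min_le_left _ _))
  obtain ⟨a, ha, hX⟩ := core D h2 hB hB1 (M1 := M1) (P2 := P2) (M2 := M2) rfl rfl rfl hBk
  refine ⟨a, fun X => ⟨?_, ?_⟩⟩
  · intro z hz
    obtain ⟨g1, g2, g3⟩ := (h1 v t hv ht (hvt.trans u1)).1 z hz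
    have e1 : |∑ A ∈ univ.erase (∅ : Finset (Fin m)), a A * cr t (v * sz hs A) z * ee p A X| ≤
        2 ^ m * ((2 ^ m + P2) * B) * (2 * S ^ 2) * cr t v z := by
      refine sum_bound hp X a (fun A => cr t (v * sz hs A) z) _ _ _ (by positivity) (by positivity) g1.le ha ?_
      intro A hA
      refine ⟨cr_nonneg hz, ?_⟩
      have s1 := D.sz_pos hA
      have s2 : ((sz hs A : ℕ) : ℝ) ≤ S := by
        rw [hS]; exact_mod_cast Dat.sz_le A
      refine (g3 _ s1 ?_).trans ?_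
      · refine le_trans (mul_le_mul_of_nonneg_right s2 hvt0.le) (hSx.trans (min_le_left _ _))
      · refine mul_le_mul_of_nonneg_right ?_ g1.le
        have s3 : (0 : ℝ) ≤ (sz hs A : ℕ) := Nat.cast_nonneg _
        nlinarith
    have e2 : 2 ^ m * ((2 ^ m + P2) * B) * (2 * S ^ 2) * cr t v z = ((M1 + M2) * B) * cr t v z := by
      rw [hM1, hM2]; ring
    rw [e2] at e1
    have e3 : ((M1 + M2) * B) * cr t v z ≤ κ * cr t v z := mul_le_mul_of_nonneg_right hBk g1.le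
    have e4 : κ * cr t v z ≤ 1 / 12 * 3 := mul_le_mul k1 g2 g1.le (by norm_num)
    have e5 : 0 < κ * cr t v z := by positivity
    rw [abs_le] at e1
    unfold th
    refine ⟨by linarith [e1.1], by linarith [e1.2], e5.le, by linarith⟩
  · have e1 := hX X
    rw [av_eq]
    have e2 : (fun θ => Real.log ((1 - th κ (fun x => cr t x (psi (Real.exp (-t)) (circleMap 0 1 θ))) v hs p a X) /
        (1 - κ * cr t v (psi (Real.exp (-t)) (circleMap 0 1 θ))))) =
        fun θ => Real.log (1 - de hs p (fun h θ => cr t (v * h) (psi (Real.exp (-t)) (circleMap 0 1 θ))) a X θ *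
          yy κ (fun h θ => cr t (v * h) (psi (Real.exp (-t)) (circleMap 0 1 θ))) θ) := by
      funext θ
      have g := D.den θ
      simp only [mul_one] at g
      have g0 : 1 - κ * cr t v (psi (Real.exp (-t)) (circleMap 0 1 θ)) ≠ 0 := by
        have : 0 < 1 - κ * cr t v (psi (Real.exp (-t)) (circleMap 0 1 θ)) := by linarith [g.1, g.2.1]
        exact this.ne'
      congr 1
      unfold th yy de
      simp only [mul_one]
      rw [← div_eq_mul_inv, eq_sub_iff_add_eq, ← add_div, div_eq_one_iff_eq g0]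
      ring
    rw [e2]
    refine le_trans ?_ e1
    refine mul_le_mul_of_nonneg_left ?_ hvt0.le
    set Sg : ℝ := ∑ A ∈ univ.erase (∅ : Finset (Fin m)), (∏ c ∈ A, p c / (1 - p c)) / (sz hs A : ℝ) with hSg
    have hSg0 : 0 ≤ Sg := by
      refine Finset.sum_nonneg fun A _ => div_nonneg (Finset.prod_nonneg fun c _ => ?_) (Nat.cast_nonneg _)
      have := hp c
      exact div_nonneg this.1 (by linarith)
    -- the constant
    have f1 : ((1 - 3 * κ)⁻¹) ^ 2 ≤ 1 + 12 * κ := by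
      have q0 : 0 < 1 - 3 * κ := by linarith
      rw [inv_pow, inv_le_iff_one_le_mul₀ (by positivity)]
      nlinarith [mul_nonneg k0.le k0.le, mul_nonneg (mul_nonneg k0.le k0.le) k0.le]
    have f2 : Real.cosh (S * (v * t)) ≤ 1 + S * (v * t) :=
      cosh_le (by positivity) (hSx.trans (min_le_left _ _))
    have f3 : 1 / 2 * ((1 - 3 * κ)⁻¹) ^ 2 * Real.cosh (S * (v * t)) ≤ 1 / 2 + ε := by
      have q1 : S * (v * t) ≤ 1 := hSx.trans (min_le_left _ _)
      have q2 : S * (v * t) ≤ ε / 2 := hSx.trans (min_le_right _ _)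
      have q3 : 0 ≤ S * (v * t) := by positivity
      have q4 : ((1 - 3 * κ)⁻¹) ^ 2 * Real.cosh (S * (v * t)) ≤ (1 + 12 * κ) * (1 + S * (v * t)) :=
        mul_le_mul f1 f2 (Real.cosh_pos _).le (by positivity)
      nlinarith
    have f4 : 1 / 2 * ((1 - 3 * κ)⁻¹) ^ 2 * Real.cosh (S * (v * t)) * Sg * B ^ 2 ≤ (1 / 2 + ε) * Sg * B ^ 2 :=
      mul_le_mul_of_nonneg_right (mul_le_mul_of_nonneg_right f3 hSg0) (sq_nonneg _)
    have f5 : 2 * C' * B ^ 3 ≤ ε * B ^ 2 := by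
      calc 2 * C' * B ^ 3 = (2 * C' * B) * B ^ 2 := by ring
        _ ≤ ε * B ^ 2 := mul_le_mul_of_nonneg_right hBC (sq_nonneg _)
    have f6 : ((1 / 2 + ε) * Sg + ε) * B ^ 2 = (1 / 2 + ε) * Sg * B ^ 2 + ε * B ^ 2 := by ring
    rw [f6]
    linarith [f4, f5]

end Pool.Agent.Run7.h743.NW
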